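import Pool.Agent.Helper78.ME.Wk

/-!
# Packet LSH of the campaign ME: the function `H` is computed in linear space
-/

namespace Pool.Agent.Helper58.ME

open Pool.Agent.Helper65.LinSpace Finset
open Pool.Agent.Helper78.ME

variable {α β : Type} [Ctx α] [Ctx β] {m : α → Wk} {C : α → ℕ}

theorem LSW_comp (h : LSW m C) {π : β → α} (hπ : LS π) :
    LSW (fun b => m (π b)) (fun b => C (π b)) where
  σ := LS.comp (g := fun z => (m z).σ) h.σ hπ
  s := LS.comp (g := fun z => (m z).s) h.s hπ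
  N := LS.comp (g := fun z => (m z).N) h.N hπ
  d := LS.comp (g := fun z => (m z).d) h.d hπ
  e := LS.comp (g := fun z => (m z).e) h.e hπ
  k := LS.comp (g := fun z => (m z).k) h.k hπ
  lam := LS.comp (g := fun z => (m z).lam) h.lam hπ
  aj := LS.comp (g := fun z : α × ℕ => (m z.1).aj z.2)
    (f := fun z : β × ℕ => (π z.1, z.2)) h.aj (by fun_prop)
  pos := LS.comp (g := fun z : α × ℕ × ℕ => (m z.1).pos z.2.1 z.2.2)
    (f := fun z : β × ℕ × ℕ => (π z.1, z.2)) h.pos (by fun_prop)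
  lp := LS.comp (g := fun z : α × ℕ => (m z.1).lp z.2)
    (f := fun z : β × ℕ => (π z.1, z.2)) h.lp (by fun_prop)
  lc := LS.comp (g := fun z : α × ℕ => (m z.1).lc z.2)
    (f := fun z : β × ℕ => (π z.1, z.2)) h.lc (by fun_prop)
  nx := LS.comp (g := fun z : α × ℕ × ℕ => (m z.1).nx z.2.1 z.2.2)
    (f := fun z : β × ℕ × ℕ => (π z.1, z.2)) h.nx (by fun_prop)
  cb := LS.comp (g := fun z : α × ℕ => (m z.1).cb z.2)
    (f := fun z : β × ℕ => (π z.1, z.2)) h.cb (by fun_prop)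
  ix := LS.comp (g := fun z : α × ℕ × ℕ => (m z.1).ix z.2.1 z.2.2)
    (f := fun z : β × ℕ × ℕ => (π z.1, z.2)) h.ix (by fun_prop)
  cel := LS.comp (g := fun z : α × ℕ × ℕ => (m z.1).cel z.2.1 z.2.2)
    (f := fun z : β × ℕ × ℕ => (π z.1, z.2)) h.cel (by fun_prop)
  q0 := LS.comp (g := fun z => (m z).q0) h.q0 hπ
  c0 := LS.comp (g := fun z => (m z).c0) h.c0 hπ
  bd := LS.comp (g := C) h.bd hπ
  hd := fun z => h.hd (π z)
  he := fun z => h.he (π z)
  hk := fun z => h.hk (π z)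
  hN := fun z => h.hN (π z)
  lc_lt := fun z => h.lc_lt (π z)
  c0_lt := fun z => h.c0_lt (π z)
  hC := fun z => h.hC (π z)
  hC' := fun z => h.hC' (π z)

theorem pow_le (h : LSW m C) (z : α) {t : ℕ}
    (ht : t ≤ (m z).e * (m z).wn + ((m z).k * (m z).e + 1) * (m z).wc) : 2 ^ t ≤ C z :=
  (Nat.pow_le_pow_right (by norm_num) ht).trans (h.hC z)

omit [Ctx α] in
theorem wc_le (z : α) : (m z).wc ≤ ((m z).k * (m z).e + 1) * (m z).wc :=
  Nat.le_mul_of_pos_left _ (Nat.succ_pos _)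

theorem LS_wn (h : LSW m C) : LS (fun z => (m z).wn) :=
  LS.mul h.σ (LS.mul h.e h.d)

theorem LS_pe (h : LSW m C) : LS (fun z => 2 ^ ((m z).e * (m z).wn)) :=
  LS.pow_of_le (f := fun _ => 2) (LS.const 2) (LS.mul h.e (LS_wn h)) h.bd
    fun z => pow_le h z (Nat.le_add_right _ _)

theorem LS_pσ (h : LSW m C) : LS (fun z => 2 ^ (m z).σ) :=
  LS.pow_of_le (f := fun _ => 2) (LS.const 2) h.σ h.bd fun z => pow_le h z (by
    have h1 := wc_le (m := m) z
    have h2 : (m z).σ ≤ (m z).wc := Nat.le_add_right _ _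
    omega)

theorem LS_ps (h : LSW m C) : LS (fun z => 2 ^ (m z).s) :=
  LS.pow_of_le (f := fun _ => 2) (LS.const 2) h.s h.bd fun z => pow_le h z (by
    have h1 := wc_le (m := m) z
    have h2 : (m z).s * (m z).N ≤ (m z).wc := Nat.le_add_left _ _
    have h3 : (m z).s ≤ (m z).s * (m z).N := Nat.le_mul_of_pos_right _ (h.hN z)
    omega)

theorem tab_bd (h : LSW m C) (z : α) : (2 ^ (m z).s) ^ (m z).N ≤ C z := by
  rw [← pow_mul]
  refine pow_le h z ?_
  have h1 := wc_le (m := m) z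
  have h2 : (m z).s * (m z).N ≤ (m z).wc := Nat.le_add_left _ _
  omega

theorem lk_cases (M : Wk) (hlc : ∀ v, M.lc v < 2 ^ M.s) (y p c T : ℕ) :
    M.lk y T p c = c ∨ M.lk y T p c < 2 ^ M.s := by
  unfold Wk.lk
  induction T with
  | zero => exact Or.inl rfl
  | succ T ih =>
    rw [nrec_succ]
    simp only [ifz]
    split_ifs
    · exact ih
    · exact Or.inr (hlc _)

theorem LS_lk (h : LSW m C) {y T p c : α → ℕ} (hy : LS y) (hT : LS T) (hp : LS p) (hc : LS c) :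
    LS (fun z => (m z).lk (y z) (T z) (p z) (c z)) := by
  have hs := LS_ps h
  unfold Wk.lk
  refine LS.nrec (G := c) (N := T) (C := fun z => c z + 2 ^ (m z).s)
    (K := fun z t r => ifz (eq01 ((m z).lp (dig (2 ^ (m z).σ) (y z) t)) (p z)) r
      ((m z).lc (dig (2 ^ (m z).σ) (y z) t))) hc hT (LS.add hc hs) ?_ ?_
  · have h0 : LSW (fun q : α × ℕ × ℕ => m q.1) (fun q => C q.1) := LSW_comp h (by fun_prop)
    have hσ := LS_pσ h0
    have hy' : LS (fun q : α × ℕ × ℕ => y q.1) := LS.comp (g := y) hy (by fun_prop)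
    have hp' : LS (fun q : α × ℕ × ℕ => p q.1) := LS.comp (g := p) hp (by fun_prop)
    have hdig : LS (fun q : α × ℕ × ℕ => dig (2 ^ (m q.1).σ) (y q.1) q.2.1) :=
      LS.dig hσ hy' (by fun_prop)
    have hlp : LS (fun q : α × ℕ × ℕ => (m q.1).lp (dig (2 ^ (m q.1).σ) (y q.1) q.2.1)) :=
      LS.comp (g := fun z : (α × ℕ × ℕ) × ℕ => (m z.1.1).lp z.2)
        (f := fun q : α × ℕ × ℕ => (q, dig (2 ^ (m q.1).σ) (y q.1) q.2.1)) h0.lp
        (by fun_prop)
    have hlc : LS (fun q : α × ℕ × ℕ => (m q.1).lc (dig (2 ^ (m q.1).σ) (y q.1) q.2.1)) :=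
      LS.comp (g := fun z : (α × ℕ × ℕ) × ℕ => (m z.1.1).lc z.2)
        (f := fun q : α × ℕ × ℕ => (q, dig (2 ^ (m q.1).σ) (y q.1) q.2.1)) h0.lc
        (by fun_prop)
    exact LS.ifz (LS.eq01 hlp hp') (by fun_prop) hlc
  · intro z i _
    have h1 := lk_cases (m z) (h.lc_lt z) (y z) (p z) (c z) i
    unfold Wk.lk at h1
    rcases h1 with h1 | h1
    · rw [h1]
      exact Nat.le_add_right _ _
    · exact h1.le.trans (Nat.le_add_left _ _)

theorem LSH : LSH_stmt := by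
  intro α _ m C h
  constructor
  · -- the function `H`
    have h0 : LSW (fun q : α × ℕ × ℕ => m q.1) (fun q => C q.1) := LSW_comp h (by fun_prop)
    have hpe := LS_pe h0
    have hpσ := LS_pσ h0
    have hT : LS (fun q : α × ℕ × ℕ => (m q.1).e * ((m q.1).e * (m q.1).d)) :=
      LS.mul h0.e (LS.mul h0.e h0.d)
    have hu : LS (fun q : α × ℕ × ℕ => q.2.2 / 2 ^ ((m q.1).e * (m q.1).wn) % 2 ^ (m q.1).σ) :=
      LS.mod (LS.div (by fun_prop) hpe) hpσ
    have hy : LS (fun q : α × ℕ × ℕ => q.2.2 % 2 ^ ((m q.1).e * (m q.1).wn)) :=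
      LS.mod (by fun_prop) hpe
    have hev : LS (fun q : α × ℕ × ℕ => (m q.1).evA
        (q.2.2 / 2 ^ ((m q.1).e * (m q.1).wn) % 2 ^ (m q.1).σ)
        (q.2.2 % 2 ^ ((m q.1).e * (m q.1).wn)) ((m q.1).e * ((m q.1).e * (m q.1).d))) := by
      unfold Wk.evA
      exact LS.ifz hT hu (LS.dig hpσ hy (LS.sub hT (LS.const 1)))
    have htab : LS (fun q : α × ℕ × ℕ => tab (2 ^ (m q.1).s) (m q.1).N fun c =>
        (m q.1).lk (q.2.2 % 2 ^ ((m q.1).e * (m q.1).wn)) ((m q.1).e * ((m q.1).e * (m q.1).d))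
          ((m q.1).cel q.2.1 c)
          (dig (2 ^ (m q.1).s) (q.2.2 / 2 ^ ((m q.1).e * (m q.1).wn) / 2 ^ (m q.1).σ) c)) := by
      refine LS.tab (d := fun (q : α × ℕ × ℕ) c =>
        (m q.1).lk (q.2.2 % 2 ^ ((m q.1).e * (m q.1).wn)) ((m q.1).e * ((m q.1).e * (m q.1).d))
          ((m q.1).cel q.2.1 c)
          (dig (2 ^ (m q.1).s) (q.2.2 / 2 ^ ((m q.1).e * (m q.1).wn) / 2 ^ (m q.1).σ) c))
        (C := fun q => C q.1) ?_ (LS_ps h0) h0.N h0.bd ?_ fun q => tab_bd h0 q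
      · have h1 : LSW (fun q : (α × ℕ × ℕ) × ℕ => m q.1.1) (fun q => C q.1.1) :=
          LSW_comp h0 (π := fun q : (α × ℕ × ℕ) × ℕ => q.1) (by fun_prop)
        have g1 := LS_pe h1
        have g2 := LS_pσ h1
        have g3 := LS_ps h1
        have g4 : LS (fun q : (α × ℕ × ℕ) × ℕ => q.1.2.2) := by fun_prop
        have g5 : LS (fun q : (α × ℕ × ℕ) × ℕ => q.2) := by fun_prop
        refine LS_lk h1 (LS.mod g4 g1) (LS.mul h1.e (LS.mul h1.e h1.d)) ?_
          (LS.dig g3 (LS.div (LS.div g4 g1) g2) g5)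
        exact LS.comp (g := fun z : ((α × ℕ × ℕ) × ℕ) × ℕ × ℕ => (m z.1.1.1).cel z.2.1 z.2.2)
          (f := fun q : (α × ℕ × ℕ) × ℕ => (q, q.1.2.1, q.2)) h1.cel (by fun_prop)
      · intro q c _
        have hlt : dig (2 ^ (m q.1).s)
            (q.2.2 / 2 ^ ((m q.1).e * (m q.1).wn) / 2 ^ (m q.1).σ) c < 2 ^ (m q.1).s :=
          dig_lt (by positivity) _ _
        rcases lk_cases (m q.1) (h.lc_lt q.1) (q.2.2 % 2 ^ ((m q.1).e * (m q.1).wn))
          ((m q.1).cel q.2.1 c)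
          (dig (2 ^ (m q.1).s) (q.2.2 / 2 ^ ((m q.1).e * (m q.1).wn) / 2 ^ (m q.1).σ) c)
          ((m q.1).e * ((m q.1).e * (m q.1).d)) with h1 | h1
        · rw [h1]
          exact hlt
        · exact h1
    unfold Wk.H
    exact LS.add hev (LS.mul hpσ htab)
  · -- the initial content
    have h0 : LSW (fun q : α × ℕ => m q.1) (fun q => C q.1) := LSW_comp h (by fun_prop)
    show LS (fun z : α × ℕ => tab (2 ^ (m z.1).s) (m z.1).N fun _ => (m z.1).c0)
    refine LS.tab (d := fun (z : α × ℕ) _ => (m z.1).c0) (C := fun q => C q.1) ?_ (LS_ps h0) h0.N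
      h0.bd (fun q _ _ => h.c0_lt q.1) fun q => tab_bd h0 q
    exact LS.comp (g := fun z : α × ℕ => (m z.1).c0) (f := fun q : (α × ℕ) × ℕ => q.1) h0.c0
      (by fun_prop)

end Pool.Agent.Helper58.ME
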